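import Mathlib
import Pool.Agent.D0H44.EC.StmB

/-! Project EC, package BLA: the bilinear sums inside a class. -/

open Finset MeasureTheory

namespace Pool.Agent.D0H81.EC

open Pool.Agent.Helper112 Pool.Agent.Helper112.BLB
open Pool.Agent.H398R2.BV Pool.Agent.H410R2
open Pool.Agent.D0H44.EC

/-- Cauchy-Schwarz for one class -/
theorem cs_P (x y : ℕ) (α β : ℕ → ℝ) (G : Finset ℕ) :
    ∑ r ∈ G, P x y α β r ≤
      Real.sqrt (∑ r ∈ G, ∑ ψ ∈ Prim r, ‖A x α r ψ‖ ^ 2) *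
        Real.sqrt (∑ r ∈ G, ∑ ψ ∈ Prim r, ‖A y β r ψ‖ ^ 2) := by
  have e : ∀ r, P x y α β r = ∑ ψ ∈ Prim r, ‖A x α r ψ‖ * ‖A y β r ψ‖ := fun r => rfl
  simp_rw [e]
  rw [sum_sigma', sum_sigma', sum_sigma']
  exact Real.sum_mul_le_sqrt_mul_sqrt _ _ _

theorem P_zero (x y : ℕ) (α : ℕ → ℝ) (β : ℕ → ℝ) (hβ : ∀ n, β n = 0) (r : ℕ) :
    P x y α β r = 0 := by
  unfold P
  apply sum_eq_zero
  intro ψ _
  have : A y β r ψ = 0 := by
    unfold A
    apply sum_eq_zero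
    intro b _
    rw [hβ b]
    simp
  rw [this, norm_zero, mul_zero]

/-- for an invertible `m` the complementary restriction is a restriction to a class -/
theorem rd_eq (q a m : ℕ) (ha : a.Coprime q) (β : ℕ → ℝ) :
    (∃ c, ∀ n, rd q a m β n = rc q c β n) ∨ ∀ n, rd q a m β n = 0 := by
  by_cases h : ∃ c, m * c ≡ a [MOD q]
  · left
    obtain ⟨c, hc⟩ := h
    refine ⟨c, fun n => ?_⟩
    have hm : (m * c).gcd q = 1 := by
      rw [hc.gcd_eq]
      exact ha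
    have hm2 : m.Coprime q := Nat.Coprime.coprime_mul_right (Nat.Coprime.symm hm).symm
    unfold rd rc
    have hiff : (m * n ≡ a [MOD q]) ↔ (n ≡ c [MOD q]) := by
      constructor
      · intro h
        exact Nat.ModEq.cancel_left_of_coprime hm2.symm (h.trans hc.symm)
      · intro h
        exact (h.mul_left m).trans hc
    by_cases h1 : n ≡ c [MOD q]
    · rw [if_pos h1, if_pos (hiff.mpr h1)]
    · rw [if_neg h1, if_neg (fun h => h1 (hiff.mp h))]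
  · right
    intro n
    unfold rd
    rw [if_neg (fun h' => h ⟨n, h'⟩)]

/-- one class -/
theorem one_m (hL : S_LSA) (R q a m x y : ℕ) (G : Finset ℕ) (α β : ℕ → ℝ) (hR : 1 ≤ R)
    (hq : 1 ≤ q) (ha : a.Coprime q) (hG : ∀ r ∈ G, r.Prime ∧ R < r ∧ r ≤ 2 * R ∧ ¬ r ∣ q) :
    ∑ r ∈ G, P x y (rc q m α) (rd q a m β) r ≤
      10 * (Real.sqrt ((x : ℝ) / q + 1 + 4 * (R : ℝ) ^ 2) *
        Real.sqrt ((y : ℝ) / q + 1 + 4 * (R : ℝ) ^ 2)) *
        (Real.sqrt (∑ b ∈ Icc 1 x, rc q m α b ^ 2) * Real.sqrt (∑ c ∈ Icc 1 y, rd q a m β c ^ 2)) := by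
  rcases rd_eq q a m ha β with ⟨c, hc⟩ | h0
  · have e : rd q a m β = rc q c β := funext hc
    rw [e]
    refine (cs_P x y _ _ G).trans ?_
    have h1 := hL R q m x G α hR hq hG
    have h2 := hL R q c y G β hR hq hG
    have h3 := Real.sqrt_le_sqrt h1
    have h4 := Real.sqrt_le_sqrt h2
    have h10 : Real.sqrt 10 * Real.sqrt 10 = 10 := Real.mul_self_sqrt (by norm_num)
    rw [Real.sqrt_mul (by positivity), Real.sqrt_mul (by norm_num)] at h3 h4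
    calc _ ≤ (Real.sqrt 10 * Real.sqrt ((x : ℝ) / q + 1 + 4 * (R : ℝ) ^ 2) *
          Real.sqrt (∑ b ∈ Icc 1 x, rc q m α b ^ 2)) *
          (Real.sqrt 10 * Real.sqrt ((y : ℝ) / q + 1 + 4 * (R : ℝ) ^ 2) *
          Real.sqrt (∑ b ∈ Icc 1 y, rc q c β b ^ 2)) := by gcongr
      _ = (Real.sqrt 10 * Real.sqrt 10) * (Real.sqrt ((x : ℝ) / q + 1 + 4 * (R : ℝ) ^ 2) *
        Real.sqrt ((y : ℝ) / q + 1 + 4 * (R : ℝ) ^ 2)) *
        (Real.sqrt (∑ b ∈ Icc 1 x, rc q m α b ^ 2) *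
          Real.sqrt (∑ c_1 ∈ Icc 1 y, rc q c β c_1 ^ 2)) := by ring
      _ = _ := by rw [h10]
  · rw [sum_eq_zero (fun r _ => P_zero x y _ _ h0 r)]
    positivity

theorem sum_rc (q x : ℕ) (hq : 1 ≤ q) (α : ℕ → ℝ) :
    ∑ m ∈ range q, ∑ b ∈ Icc 1 x, rc q m α b ^ 2 ≤ ∑ b ∈ Icc 1 x, α b ^ 2 := by
  classical
  rw [sum_comm]
  apply sum_le_sum
  intro b _
  have h : ∀ m ∈ range q, rc q m α b ^ 2 = if m = b % q then α b ^ 2 else 0 := by
    intro m hm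
    rw [mem_range] at hm
    unfold rc
    have hiff : (b ≡ m [MOD q]) ↔ m = b % q := by
      unfold Nat.ModEq
      rw [Nat.mod_eq_of_lt hm]
      exact eq_comm
    by_cases h1 : m = b % q
    · rw [if_pos h1, if_pos (hiff.mpr h1)]
    · rw [if_neg h1, if_neg (fun h => h1 (hiff.mp h))]
      norm_num
  rw [sum_congr rfl h, sum_ite_eq']
  split_ifs
  · exact le_rfl
  · exact sq_nonneg _

theorem sum_rd (q a y : ℕ) (ha : a.Coprime q) (β : ℕ → ℝ) :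
    ∑ m ∈ range q, ∑ c ∈ Icc 1 y, rd q a m β c ^ 2 ≤ ∑ c ∈ Icc 1 y, β c ^ 2 := by
  classical
  rw [sum_comm]
  apply sum_le_sum
  intro c _
  have h : ∑ m ∈ range q, rd q a m β c ^ 2 =
      ∑ m ∈ (range q).filter (fun m => m * c ≡ a [MOD q]), β c ^ 2 := by
    rw [sum_filter]
    apply sum_congr rfl
    intro m _
    unfold rd
    split_ifs <;> norm_num
  have hcard : ((range q).filter (fun m => m * c ≡ a [MOD q])).card ≤ 1 := by
    rw [card_le_one]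
    intro m1 h1 m2 h2
    rw [mem_filter, mem_range] at h1 h2
    have hg : (m1 * c).gcd q = 1 := by
      rw [h1.2.gcd_eq]
      exact ha
    have hc : c.Coprime q := Nat.Coprime.coprime_mul_left hg
    have h3 : m1 ≡ m2 [MOD q] :=
      Nat.ModEq.cancel_right_of_coprime hc.symm (h1.2.trans h2.2.symm)
    have h4 := h3
    unfold Nat.ModEq at h4
    rwa [Nat.mod_eq_of_lt h1.1, Nat.mod_eq_of_lt h2.1] at h4
  rw [h, sum_const, nsmul_eq_mul]
  have : (((range q).filter (fun m => m * c ≡ a [MOD q])).card : ℝ) ≤ 1 := by exact_mod_cast hcard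
  nlinarith [sq_nonneg (β c)]

theorem t_BLA : S_LSA → S_BLA := by
  intro hL R q a x y G α β hR hq ha hG
  set D := 10 * (Real.sqrt ((x : ℝ) / q + 1 + 4 * (R : ℝ) ^ 2) *
      Real.sqrt ((y : ℝ) / q + 1 + 4 * (R : ℝ) ^ 2)) with hD
  have hD0 : 0 ≤ D := by positivity
  have h1 : ∑ m ∈ range q, ∑ r ∈ G, P x y (rc q m α) (rd q a m β) r ≤
      ∑ m ∈ range q, D * (Real.sqrt (∑ b ∈ Icc 1 x, rc q m α b ^ 2) *
        Real.sqrt (∑ c ∈ Icc 1 y, rd q a m β c ^ 2)) :=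
    sum_le_sum fun m _ => one_m hL R q a m x y G α β hR hq ha hG
  refine h1.trans ?_
  rw [← mul_sum]
  apply mul_le_mul_of_nonneg_left _ hD0
  refine (Real.sum_mul_le_sqrt_mul_sqrt _ _ _).trans ?_
  have hs : ∀ m, Real.sqrt (∑ b ∈ Icc 1 x, rc q m α b ^ 2) ^ 2 = ∑ b ∈ Icc 1 x, rc q m α b ^ 2 :=
    fun m => Real.sq_sqrt (sum_nonneg fun _ _ => sq_nonneg _)
  have ht : ∀ m, Real.sqrt (∑ c ∈ Icc 1 y, rd q a m β c ^ 2) ^ 2 =
      ∑ c ∈ Icc 1 y, rd q a m β c ^ 2 :=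
    fun m => Real.sq_sqrt (sum_nonneg fun _ _ => sq_nonneg _)
  simp_rw [hs, ht]
  exact mul_le_mul (Real.sqrt_le_sqrt (sum_rc q x hq α)) (Real.sqrt_le_sqrt (sum_rd q a y ha β))
    (Real.sqrt_nonneg _) (Real.sqrt_nonneg _)

end Pool.Agent.D0H81.EC
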