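import Mathlib
import Pool.Agent.D0H44.EC.StmB

/-! Project EC, package LSA: the large sieve inside a class. -/

open Finset MeasureTheory

namespace Pool.Agent.D0H81.EC

open Pool.Agent.Helper112 Pool.Agent.Helper112.BLB
open Pool.Agent.H398R2.BV Pool.Agent.H410R2
open Pool.Agent.D0H44.EC

/-- the coefficients along the class -/
noncomputable def ap (q m N : ℕ) (α : ℕ → ℝ) (k : ℕ) : ℂ :=
  if 1 ≤ m % q + q * (k - 1) ∧ m % q + q * (k - 1) ≤ N then ((α (m % q + q * (k - 1)) : ℝ) : ℂ)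
  else 0

/-- sums over the class as sums over `k` -/
theorem sum_class (q m N : ℕ) (hq : 1 ≤ q) (α : ℕ → ℝ) (g : ℕ → ℂ) :
    ∑ n ∈ Icc 1 N, ((rc q m α n : ℝ) : ℂ) * g n =
      ∑ k ∈ Icc 1 (N / q + 1), ap q m N α k * g (m % q + q * (k - 1)) := by
  classical
  have e1 : ∑ n ∈ Icc 1 N, ((rc q m α n : ℝ) : ℂ) * g n =
      ∑ n ∈ (Icc 1 N).filter (fun n => n ≡ m [MOD q]), ((α n : ℝ) : ℂ) * g n := by
    rw [sum_filter]
    apply sum_congr rfl
    intro n _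
    unfold rc
    split_ifs <;> simp
  have e2 : ∑ k ∈ Icc 1 (N / q + 1), ap q m N α k * g (m % q + q * (k - 1)) =
      ∑ k ∈ (Icc 1 (N / q + 1)).filter (fun k => 1 ≤ m % q + q * (k - 1) ∧
        m % q + q * (k - 1) ≤ N), ((α (m % q + q * (k - 1)) : ℝ) : ℂ) *
          g (m % q + q * (k - 1)) := by
    rw [sum_filter]
    apply sum_congr rfl
    intro k _
    unfold ap
    split_ifs <;> simp
  rw [e1, e2]
  symm
  apply sum_bij (fun k _ => m % q + q * (k - 1))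
  · intro k hk
    rw [mem_filter, mem_Icc] at hk
    rw [mem_filter, mem_Icc]
    refine ⟨hk.2, ?_⟩
    unfold Nat.ModEq
    rw [Nat.add_mul_mod_self_left, Nat.mod_mod]
  · intro k hk l hl h
    rw [mem_filter, mem_Icc] at hk hl
    have h1 : q * (k - 1) = q * (l - 1) := by
      exact Nat.add_left_cancel h
    have h2 := Nat.eq_of_mul_eq_mul_left (by omega) h1
    omega
  · intro n hn
    rw [mem_filter, mem_Icc] at hn
    have h1 : n % q = m % q := hn.2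
    have h2 : n = m % q + q * (n / q) := by
      rw [← h1]
      exact (Nat.mod_add_div n q).symm
    refine ⟨n / q + 1, ?_, ?_⟩
    · rw [mem_filter, mem_Icc]
      rw [Nat.add_sub_cancel, ← h2]
      exact ⟨⟨Nat.le_add_left 1 _, Nat.add_le_add_right (Nat.div_le_div_right hn.1.2) 1⟩, hn.1⟩
    · simp only [Nat.add_sub_cancel]
      exact h2.symm
  · intro k _
    rfl

theorem sum_sq (q m N : ℕ) (hq : 1 ≤ q) (α : ℕ → ℝ) :
    ∑ k ∈ Icc 1 (N / q + 1), ‖ap q m N α k‖ ^ 2 = ∑ b ∈ Icc 1 N, rc q m α b ^ 2 := by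
  have h := sum_class q m N hq α (fun n => ((α n : ℝ) : ℂ))
  have e1 : ∑ n ∈ Icc 1 N, ((rc q m α n : ℝ) : ℂ) * ((α n : ℝ) : ℂ) =
      ((∑ b ∈ Icc 1 N, rc q m α b ^ 2 : ℝ) : ℂ) := by
    rw [Complex.ofReal_sum]
    apply sum_congr rfl
    intro n _
    unfold rc
    split_ifs
    · push_cast; ring
    · simp
  have e2 : ∑ k ∈ Icc 1 (N / q + 1), ap q m N α k * ((α (m % q + q * (k - 1)) : ℝ) : ℂ) =
      ((∑ k ∈ Icc 1 (N / q + 1), ‖ap q m N α k‖ ^ 2 : ℝ) : ℂ) := by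
    rw [Complex.ofReal_sum]
    apply sum_congr rfl
    intro n _
    unfold ap
    split_ifs
    · rw [Complex.norm_real, Real.norm_eq_abs, sq_abs]
      push_cast; ring
    · simp
  rw [e1, e2] at h
  exact_mod_cast h.symm

/-- additive characters along the class -/
theorem T_class (q m N r : ℕ) [NeZero r] (hq : 1 ≤ q) (α : ℕ → ℝ) (a : ZMod r) :
    ‖MLS.T r N (fun n => ((rc q m α n : ℝ) : ℂ)) a‖ =
      ‖MLS.T r (N / q + 1) (ap q m N α) (a * (q : ZMod r))‖ := by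
  unfold MLS.T
  rw [sum_class q m N hq α (fun n => ZMod.stdAddChar (a * (n : ZMod r)))]
  have h1 : ∀ k ∈ Icc 1 (N / q + 1), ap q m N α k *
      ZMod.stdAddChar (a * ((m % q + q * (k - 1) : ℕ) : ZMod r)) =
      ZMod.stdAddChar (a * (((m % q : ℕ) : ZMod r) - (q : ZMod r))) *
        (ap q m N α k * ZMod.stdAddChar (a * (q : ZMod r) * (k : ZMod r))) := by
    intro k hk
    rw [mem_Icc] at hk
    have e : a * ((m % q + q * (k - 1) : ℕ) : ZMod r) =
        a * (((m % q : ℕ) : ZMod r) - (q : ZMod r)) + a * (q : ZMod r) * (k : ZMod r) := by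
      rw [Nat.cast_add, Nat.cast_mul, Nat.cast_sub hk.1]
      push_cast
      ring
    rw [e, AddChar.map_add_eq_mul]
    ring
  rw [sum_congr rfl h1, ← mul_sum, norm_mul]
  have h2 : ‖(ZMod.stdAddChar (a * (((m % q : ℕ) : ZMod r) - (q : ZMod r))) : ℂ)‖ = 1 := by
    exact AddChar.norm_apply _ _
  rw [h2, one_mul]

theorem units_shift (q m N r : ℕ) [NeZero r] (hq : 1 ≤ q) (hc : q.Coprime r) (α : ℕ → ℝ) :
    ∑ a : (ZMod r)ˣ, ‖MLS.T r N (fun n => ((rc q m α n : ℝ) : ℂ)) a‖ ^ 2 =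
      ∑ a : (ZMod r)ˣ, ‖MLS.T r (N / q + 1) (ap q m N α) a‖ ^ 2 := by
  rw [← Equiv.sum_comp (Equiv.mulRight (ZMod.unitOfCoprime q hc))
    (fun a : (ZMod r)ˣ => ‖MLS.T r (N / q + 1) (ap q m N α) a‖ ^ 2)]
  apply sum_congr rfl
  intro a _
  rw [T_class q m N r hq α (a : ZMod r)]
  simp only [Equiv.coe_mulRight, Units.val_mul, ZMod.coe_unitOfCoprime]

theorem one_mod (q m N r : ℕ) (hr : 1 ≤ r) (hq : 1 ≤ q) (hc : q.Coprime r) (α : ℕ → ℝ) :
    ∑ ψ ∈ Prim r, ‖A N (rc q m α) r ψ‖ ^ 2 ≤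
      ∑ a ∈ (range r).filter (fun a => a.Coprime r),
        ‖∑ n ∈ Icc 1 (N / q + 1), ap q m N α n * ee (n * a / r)‖ ^ 2 := by
  classical
  have : NeZero r := ⟨by omega⟩
  rw [← MLS.sum_units, ← units_shift q m N r hq hc α]
  refine le_trans ?_ (MLS.prim_bound r N (fun n => ((rc q m α n : ℝ) : ℂ)))
  have h0 : (0:ℝ) < (Nat.totient r : ℝ) := by
    have := Nat.totient_pos.mpr (NeZero.pos r)
    positivity
  have h1 : (1:ℝ) ≤ (r : ℝ) / (Nat.totient r : ℝ) := by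
    rw [le_div_iff₀ h0, one_mul]
    exact_mod_cast Nat.totient_le r
  have h2 : 0 ≤ ∑ ψ ∈ Prim r, ‖A N (rc q m α) r ψ‖ ^ 2 := by positivity
  refine le_trans (le_mul_of_one_le_left h2 h1) (le_of_eq ?_)
  rfl

theorem t_LSA : S_LSA := by
  intro R q m N G α hR hq hG
  have h1 : ∑ r ∈ G, ∑ ψ ∈ Prim r, ‖A N (rc q m α) r ψ‖ ^ 2 ≤
      ∑ r ∈ G, ∑ a ∈ (range r).filter (fun a => a.Coprime r),
        ‖∑ n ∈ Icc 1 (N / q + 1), ap q m N α n * ee (n * a / r)‖ ^ 2 := by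
    apply sum_le_sum
    intro r hr
    obtain ⟨hp, h2, h3, h4⟩ := hG r hr
    exact one_mod q m N r (by omega) hq ((Nat.Prime.coprime_iff_not_dvd hp).mpr h4).symm α
  have h2 : ∑ r ∈ G, ∑ a ∈ (range r).filter (fun a => a.Coprime r),
        ‖∑ n ∈ Icc 1 (N / q + 1), ap q m N α n * ee (n * a / r)‖ ^ 2 ≤
      ∑ r ∈ Icc 1 (2 * R), ∑ a ∈ (range r).filter (fun a => a.Coprime r),
        ‖∑ n ∈ Icc 1 (N / q + 1), ap q m N α n * ee (n * a / r)‖ ^ 2 := by
    apply sum_le_sum_of_subset_of_nonneg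
    · intro r hr
      obtain ⟨hp, h2, h3, h4⟩ := hG r hr
      rw [mem_Icc]
      omega
    · intro r _ _
      positivity
  have h3 := additive_large_sieve (N / q + 1) (2 * R) (ap q m N α)
  rw [sum_sq q m N hq α] at h3
  refine (h1.trans h2).trans (h3.trans ?_)
  have h4 : 0 ≤ ∑ b ∈ Icc 1 N, rc q m α b ^ 2 := sum_nonneg fun _ _ => sq_nonneg _
  apply mul_le_mul_of_nonneg_right _ h4
  have h5 : ((N / q : ℕ) : ℝ) ≤ (N : ℝ) / q := Nat.cast_div_le
  have h6 : (0:ℝ) ≤ (N : ℝ) / q := by positivity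
  push_cast
  nlinarith [sq_nonneg (R : ℝ)]

end Pool.Agent.D0H81.EC
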